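import Mathlib
import Pool.Agent.Y826.Z.Defs2
import Pool.Agent.Y535.ZP.Dya

/-! One complete frequency: the van der Corput bound for a sum of phases over an interval
(smooth variable, so no Cauchy-Schwarz step over the variable is needed). -/

open Finset Filter

namespace Pool.Agent.J4H35.SM

open Pool.Agent.Y826.Z Pool.Agent.Y535.ZP

/-- the conclusion of the van der Corput step, for a fixed `ε` and a fixed constant -/
def VdcI (ε C : ℝ) : Prop := ∀ (P : Finset ℕ), (∀ p ∈ P, p.Prime) →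
      ∀ (A c : (p : ℕ) → ZMod p) (a : ℤ) (N d : ℕ), 1 ≤ d → d ≤ N → (∀ p ∈ P, ¬ p ∣ d) →
      ∀ Z : ℤ → ℂ, (∀ n, Z (n + d) = Z n) → (∀ n, ‖Z n‖ ≤ 1) →
      ‖∑ n ∈ Ico a (a + N), Z n * PH P A c n‖ ^ 2 ≤
        C * ((N : ℝ) * ((∏ p ∈ P, p : ℕ) : ℝ)) ^ ε *
          ((N : ℝ) * d + N * Real.sqrt ((∏ p ∈ P.filter (fun p => A p = 0), p : ℕ) : ℝ) *
            (Real.sqrt ((∏ p ∈ P, p : ℕ) : ℝ) + N / Real.sqrt ((∏ p ∈ P, p : ℕ) : ℝ)))

lemma sqrt_le_Bd (N D d g : ℝ) (hd : 0 ≤ d) (hg : 0 ≤ g) : Real.sqrt (N * D) ≤ Bd N D d g := by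
  unfold Bd
  have h1 := Real.rpow_nonneg hd (1 / 4 : ℝ)
  have h2 := Real.rpow_nonneg hg (1 / 4 : ℝ)
  have h3 : 0 ≤ g ^ (1 / 4 : ℝ) * (Real.sqrt N * (d ^ (1 / 4 : ℝ) + Real.sqrt N / d ^ (1 / 4 : ℝ))) := by
    positivity
  linarith

/-- one frequency -/
lemma single {ε C : ℝ} (hε : 0 < ε) (hC : 1 ≤ C) (hV : VdcI ε C)
    (d Pi N N' : ℕ) (X : ℝ) (A : (p : ℕ) → ZMod p) (c : (p : ℕ) → ZMod p)
    (Z : ℤ → ℂ) (k a0 : ℤ)
    (hX : 1 ≤ X) (hN' : N' ≤ N) (hNX : (N : ℝ) ≤ X)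
    (hA : ∀ (p : ℕ), p.Prime → p ∣ Pi → A p ≠ 0)
    (hZ1 : ∀ x, ‖Z x‖ ≤ 1)
    (hZ2 : ∀ x, Z (x + d) = Z x)
    (hsq : Squarefree (d * Pi))
    (hq : ((d * Pi : ℕ) : ℝ) ≤ X) (hk : k ≠ 0) :
    ‖∑ n ∈ Ico a0 (a0 + N'), Z n * PH Pi.primeFactors
        (fun p => (k : ZMod p) * ((d * Pi / p : ℕ) : ZMod p)⁻¹ * A p) c n‖ ≤
      Real.sqrt C * X ^ ε * Bd N d (Pi : ℝ) (Int.gcd k (Pi : ℤ)) := by
  have hX0 : 0 < X := by linarith
  have hXe1 : 1 ≤ X ^ ε := Real.one_le_rpow hX hε.le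
  have hsC : 1 ≤ Real.sqrt C := by
    rw [show (1 : ℝ) = Real.sqrt 1 by simp]; exact Real.sqrt_le_sqrt hC
  have hS1 : 1 ≤ Real.sqrt C * X ^ ε := by nlinarith
  set PP := Pi.primeFactors with hPP
  have hqpos : 0 < d * Pi := Nat.pos_of_ne_zero hsq.ne_zero
  have hdpos : 0 < d := Nat.pos_of_mul_pos_right hqpos
  have hPpos : 0 < Pi := Nat.pos_of_mul_pos_left hqpos
  have hPsf : Squarefree Pi := hsq.squarefree_of_dvd ⟨d, by ring⟩
  have hprod : ∏ p ∈ PP, p = Pi := Nat.prod_primeFactors_of_squarefree hPsf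
  have hPP' : ∀ p ∈ PP, p.Prime := fun p hp => Nat.prime_of_mem_primeFactors hp
  have hB0 : 0 ≤ Bd N d (Pi : ℝ) (Int.gcd k (Pi : ℤ)) :=
    Bd_nonneg _ _ _ _ (Nat.cast_nonneg _) (Nat.cast_nonneg _)
  have hN0 : (0 : ℝ) ≤ N := Nat.cast_nonneg _
  set Ax : (p : ℕ) → ZMod p := fun p => (k : ZMod p) * ((d * Pi / p : ℕ) : ZMod p)⁻¹ * A p with hAx
  rcases le_or_gt d N' with hdN | hdN
  · -- the van der Corput step
    have hcop : ∀ p ∈ PP, ¬ p ∣ d := by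
      intro p hp hpd
      have hpp := hPP' p hp
      have hpPi : p ∣ Pi := Nat.dvd_of_mem_primeFactors hp
      have : p * p ∣ d * Pi := Nat.mul_dvd_mul hpd hpPi
      exact hpp.one_lt.ne' (Nat.isUnit_iff.mp (hsq p this))
    have hv := hV PP hPP' Ax c a0 N' d hdpos hdN hcop Z hZ2 hZ1
    rw [hprod] at hv
    set G := ∏ p ∈ PP.filter (fun p => Ax p = 0), p with hG
    set gg := Int.gcd k (Pi : ℤ) with hgg
    have hggpos : 0 < gg := Int.gcd_pos_of_ne_zero_left _ hk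
    have hGdvd : G ∣ gg := by
      rw [hG]
      apply Finset.prod_primes_dvd
      · intro p hp
        exact (hPP' p (mem_filter.mp hp).1).prime
      · intro p hp
        rw [mem_filter] at hp
        have hpp := hPP' p hp.1
        have hpPi : p ∣ Pi := Nat.dvd_of_mem_primeFactors hp.1
        have h0 := hp.2
        rw [hgg]
        have hdt : (p : ℤ) ∣ k := by
          have hd0 := deg p hpp (d * Pi) 1 1 k 0 (A p) (hA p hpp hpPi) (hpPi.mul_left _)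
            (by rw [mul_one]; exact hsq) (by rw [mul_one]; exact hsq) (by
              simp only [mul_one, Int.cast_zero, zero_mul, sub_zero]
              exact h0)
          simpa using hd0
        have := Int.dvd_coe_gcd hdt (Int.natCast_dvd_natCast.mpr hpPi)
        exact_mod_cast this
    have hGle : (G : ℝ) ≤ gg := by exact_mod_cast Nat.le_of_dvd hggpos hGdvd
    have hPr0 : (0 : ℝ) < Pi := by exact_mod_cast hPpos
    have hPX : (Pi : ℝ) ≤ X := by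
      refine le_trans ?_ hq
      exact_mod_cast Nat.le_of_dvd hqpos ⟨d, by ring⟩
    have hNN : (N' : ℝ) ≤ N := by exact_mod_cast hN'
    have hpow : ((N' : ℝ) * Pi) ^ ε ≤ (X ^ ε) ^ 2 := by
      calc ((N' : ℝ) * Pi) ^ ε ≤ (X * X) ^ ε := by
            apply Real.rpow_le_rpow (by positivity) _ hε.le
            exact mul_le_mul (hNN.trans hNX) hPX hPr0.le hX0.le
        _ = (X ^ ε) ^ 2 := by rw [Real.mul_rpow hX0.le hX0.le]; ring
    have hB := Bd_sq N d Pi G hN0 (Nat.cast_nonneg _) hPr0 (Nat.cast_nonneg _)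
    have hB2 : Bd N d Pi G ≤ Bd N d Pi gg :=
      Bd_mono _ _ _ _ _ _ hN0 hPr0.le (Nat.cast_nonneg _) le_rfl hGle
    have hB0' : 0 ≤ Bd N d Pi G := Bd_nonneg _ _ _ _ hPr0.le (Nat.cast_nonneg _)
    have hXe : 0 ≤ X ^ ε := Real.rpow_nonneg hX0.le _
    have hmono : (N' : ℝ) * d + N' * Real.sqrt G * (Real.sqrt Pi + N' / Real.sqrt Pi) ≤
        (N : ℝ) * d + N * Real.sqrt G * (Real.sqrt Pi + N / Real.sqrt Pi) := by
      gcongr
    have hfin : ‖∑ n ∈ Ico a0 (a0 + N'), Z n * PH PP Ax c n‖ ^ 2 ≤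
        (Real.sqrt C * X ^ ε * Bd N d Pi gg) ^ 2 := by
      have e1 : (Real.sqrt C * X ^ ε * Bd N d Pi gg) ^ 2 = C * (X ^ ε) ^ 2 * (Bd N d Pi gg) ^ 2 := by
        rw [mul_pow, mul_pow, Real.sq_sqrt (by linarith)]
      rw [e1]
      refine hv.trans ?_
      apply mul_le_mul
      · exact mul_le_mul_of_nonneg_left hpow (by linarith)
      · exact (hmono.trans hB).trans (pow_le_pow_left₀ hB0' hB2 2)
      · positivity
      · positivity
    exact (pow_le_pow_iff_left₀ (norm_nonneg _) (by positivity) (by norm_num)).mp hfin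
  · -- the trivial bound
    have h1 : ‖∑ n ∈ Ico a0 (a0 + N'), Z n * PH PP Ax c n‖ ≤ N' := by
      refine (norm_sum_le _ _).trans ?_
      have h2 : ∀ n ∈ Ico a0 (a0 + N'), ‖Z n * PH PP Ax c n‖ ≤ 1 := by
        intro n _
        rw [norm_mul]
        exact mul_le_one₀ (hZ1 _) (norm_nonneg _) (PH_norm _ _ _ _)
      refine (sum_le_sum h2).trans ?_
      rw [sum_const, nsmul_eq_mul, mul_one, Int.card_Ico]
      simp
    have h2 : (N' : ℝ) ≤ Real.sqrt (N * d) := by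
      apply Real.le_sqrt_of_sq_le
      have a1 : (N' : ℝ) ≤ N := by exact_mod_cast hN'
      have a2 : (N' : ℝ) ≤ d := by exact_mod_cast hdN.le
      rw [sq]
      exact mul_le_mul a1 a2 (Nat.cast_nonneg _) hN0
    calc _ ≤ (N' : ℝ) := h1
      _ ≤ Real.sqrt (N * d) := h2
      _ ≤ Bd N d (Pi : ℝ) (Int.gcd k (Pi : ℤ)) :=
          sqrt_le_Bd _ _ _ _ (Nat.cast_nonneg _) (Nat.cast_nonneg _)
      _ ≤ _ := le_mul_of_one_le_left hB0 hS1

end Pool.Agent.J4H35.SM
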