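import Mathlib
import Pool.Agent.Y826.Z.OB1
import Pool.Agent.Y535.ZP.OA
import Pool.Agent.J4H35.SM.Single

/-! The off-diagonal terms for fixed outer variables, smooth variable. -/

open Finset Filter

namespace Pool.Agent.J4H35.SM

open Pool.Agent.Y826.Z Pool.Agent.Y535.ZP

/-- the smooth coefficient -/
noncomputable def bt (y n : ℕ) : ℝ := if n ≤ y then 1 else 0

lemma sum_Kf_gcd (i Pi : ℕ) (hPi : Pi ≠ 0) :
    ∑ k ∈ Kf i, (Int.gcd k (Pi : ℤ) : ℝ) ≤ 4 * 2 ^ i * tau Pi := by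
  classical
  set I : Finset ℕ := Icc 1 ⌊((2 : ℝ) ^ (i + 1))⌋₊ with hI
  have hmem : ∀ k ∈ Kf i, k.natAbs ∈ I := by
    intro k hk
    rw [mem_Kf] at hk
    rw [hI, mem_Icc]
    have h1 : 0 < 2 ^ i := by positivity
    refine ⟨by omega, Nat.le_floor ?_⟩
    exact_mod_cast hk.2.le
  have hsub : Kf i ⊆ I.image (fun n : ℕ => (n : ℤ)) ∪ I.image (fun n : ℕ => -(n : ℤ)) := by
    intro k hk
    have h1 := hmem k hk
    rw [mem_union, mem_image, mem_image]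
    rcases le_or_gt 0 k with h | h
    · left
      exact ⟨k.natAbs, h1, by omega⟩
    · right
      exact ⟨k.natAbs, h1, by omega⟩
  have hf0 : ∀ k : ℤ, (0 : ℝ) ≤ (Int.gcd k (Pi : ℤ) : ℝ) := fun k => Nat.cast_nonneg _
  have e1 : ∑ k ∈ I.image (fun n : ℕ => (n : ℤ)), (Int.gcd k (Pi : ℤ) : ℝ) =
      ∑ n ∈ I, (Nat.gcd Pi n : ℝ) := by
    rw [sum_image (by intro a _ b _ h; simpa using h)]
    refine sum_congr rfl fun n _ => ?_
    rw [Int.gcd_natCast_natCast, Nat.gcd_comm]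
  have e2 : ∑ k ∈ I.image (fun n : ℕ => -(n : ℤ)), (Int.gcd k (Pi : ℤ) : ℝ) =
      ∑ n ∈ I, (Nat.gcd Pi n : ℝ) := by
    rw [sum_image (by intro a _ b _ h; simpa using h)]
    refine sum_congr rfl fun n _ => ?_
    rw [Int.neg_gcd, Int.gcd_natCast_natCast, Nat.gcd_comm]
  have h3 : ∑ k ∈ Kf i, (Int.gcd k (Pi : ℤ) : ℝ) ≤
      ∑ k ∈ I.image (fun n : ℕ => (n : ℤ)), (Int.gcd k (Pi : ℤ) : ℝ) +
      ∑ k ∈ I.image (fun n : ℕ => -(n : ℤ)), (Int.gcd k (Pi : ℤ) : ℝ) := by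
    refine (sum_le_sum_of_subset_of_nonneg hsub fun k _ _ => hf0 k).trans ?_
    have h4 := sum_union_inter (s₁ := I.image (fun n : ℕ => (n : ℤ)))
      (s₂ := I.image (fun n : ℕ => -(n : ℤ))) (f := fun k : ℤ => (Int.gcd k (Pi : ℤ) : ℝ))
    have h5 : 0 ≤ ∑ k ∈ I.image (fun n : ℕ => (n : ℤ)) ∩ I.image (fun n : ℕ => -(n : ℤ)),
      (Int.gcd k (Pi : ℤ) : ℝ) := sum_nonneg fun k _ => hf0 k
    linarith
  rw [e1, e2] at h3
  have h6 := OB.sum_gcd Pi hPi ((2 : ℝ) ^ (i + 1)) (by positivity)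
  have h7 : (2 : ℝ) ^ (i + 1) = 2 * 2 ^ i := by rw [pow_succ]; ring
  rw [h7] at h6
  rw [hI, h7] at h3
  linarith

/-- the sum over the frequencies -/
lemma freqsum (M q Pi L : ℕ) (hPi : Pi ≠ 0) (S : ℤ → ℂ) (B0 : ℝ) (hB0 : 0 ≤ B0)
    (hS : ∀ k : ℤ, k ≠ 0 → ‖S k‖ ≤ (Int.gcd k (Pi : ℤ) : ℝ) * B0)
    (hL : ∀ k ∈ freq q, Nat.log 2 k.natAbs < L) :
    ‖∑ k ∈ freq q, Ih M q k * S k‖ ≤ L * (4 * tau Pi * B0) := by
  classical
  rw [dy q L hL]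
  refine (norm_sum_le _ _).trans ?_
  have h1 : ∀ i ∈ range L, ‖∑ k ∈ Kf i, if k ∈ freq q then Ih M q k * S k else 0‖ ≤
      4 * tau Pi * B0 := by
    intro i _
    refine (norm_sum_le _ _).trans ?_
    have h2 : ∀ k ∈ Kf i, ‖(if k ∈ freq q then Ih M q k * S k else 0 : ℂ)‖ ≤
        (1 / 2 ^ i) * ((Int.gcd k (Pi : ℤ) : ℝ) * B0) := by
      intro k hk
      have hk1 := ((mem_Kf i k).mp hk).1
      have hkne : k ≠ 0 := by
        rintro rfl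
        have : 0 < 2 ^ i := by positivity
        simp at hk1
      split_ifs with hf
      · rw [norm_mul]
        apply mul_le_mul _ (hS k hkne) (norm_nonneg _) (by positivity)
        refine (Ih_dec _ _ _ hf).trans ?_
        apply one_div_le_one_div_of_le (by positivity)
        have h2 : |(k : ℝ)| = (k.natAbs : ℝ) := by
          rw [← Int.cast_abs, Int.abs_eq_natAbs]; simp
        rw [h2]
        exact_mod_cast hk1
      · rw [norm_zero]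
        positivity
    refine (sum_le_sum h2).trans ?_
    rw [← mul_sum, ← sum_mul]
    have h3 := sum_Kf_gcd i Pi hPi
    calc (1 / (2 : ℝ) ^ i) * ((∑ k ∈ Kf i, (Int.gcd k (Pi : ℤ) : ℝ)) * B0) ≤
        (1 / (2 : ℝ) ^ i) * ((4 * 2 ^ i * tau Pi) * B0) := by gcongr
      _ = 4 * tau Pi * B0 := by field_simp
  refine (sum_le_sum h1).trans ?_
  rw [sum_const, card_range, nsmul_eq_mul]

/-- the pairs `n, n + t` in the interval -/
lemma interval (N y : ℕ) (t : ℤ) : ∃ (a0 : ℤ) (N' : ℕ), N' ≤ N ∧ ∀ F : ℤ → ℂ,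
    ∑ n ∈ Ioc N (2 * N), (Bf N (bt y) t n : ℂ) * F (n : ℤ) = ∑ n ∈ Ico a0 (a0 + N'), F n := by
  classical
  obtain ⟨lo, hlo⟩ : ∃ lo : ℤ, lo = max (N : ℤ) ((N : ℤ) - t) := ⟨_, rfl⟩
  obtain ⟨hi, hhi⟩ : ∃ hi : ℤ, hi = min (min (2 * (N : ℤ)) y) (min (2 * (N : ℤ) - t) (y - t)) := ⟨_, rfl⟩
  refine ⟨lo + 1, (hi - lo).toNat, ?_, fun F => ?_⟩
  · have h1 : hi ≤ 2 * (N : ℤ) := by rw [hhi]; exact (min_le_left _ _).trans (min_le_left _ _)
    have h2 : (N : ℤ) ≤ lo := by rw [hlo]; exact le_max_left _ _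
    omega
  · have e1 : ∀ n ∈ Ioc N (2 * N), (Bf N (bt y) t n : ℂ) * F (n : ℤ) =
        (fun x : ℤ => if x ∈ Ico (lo + 1) (lo + 1 + ((hi - lo).toNat : ℤ)) then F x else 0) (n : ℤ) := by
      intro n hn
      rw [mem_Ioc] at hn
      have hcond : (n : ℤ) ∈ Ico (lo + 1) (lo + 1 + ((hi - lo).toNat : ℤ)) ↔
          (n ≤ y ∧ (N : ℤ) < n + t ∧ (n : ℤ) + t ≤ 2 * N ∧ (n : ℤ) + t ≤ y) := by
        rw [mem_Ico]
        have a1 : lo + 1 ≤ (n : ℤ) ↔ (N : ℤ) < n ∧ (N : ℤ) - t < n := by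
          rw [hlo, Int.add_one_le_iff, max_lt_iff]
        have a2 : (n : ℤ) ≤ hi ↔ ((n : ℤ) ≤ 2 * N ∧ (n : ℤ) ≤ y) ∧ ((n : ℤ) ≤ 2 * N - t ∧ (n : ℤ) ≤ y - t) := by
          rw [hhi, le_min_iff, le_min_iff, le_min_iff]
        constructor
        · rintro ⟨b1, b2⟩
          have b3 := a1.1 b1
          have b4 : (n : ℤ) ≤ hi := by omega
          have b5 := a2.1 b4
          omega
        · rintro ⟨b1, b2, b3, b4⟩
          have c1 := a1.2 ⟨by omega, by omega⟩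
          have c2 := a2.2 ⟨⟨by omega, by omega⟩, ⟨by omega, by omega⟩⟩
          refine ⟨c1, by omega⟩
      have hBf : Bf N (bt y) t n = if (n ≤ y ∧ (N : ℤ) < n + t ∧ (n : ℤ) + t ≤ 2 * N ∧ (n : ℤ) + t ≤ y)
          then 1 else 0 := by
        unfold Bf bt ind
        by_cases hny : n ≤ y
        · by_cases hc : (n ≤ y ∧ (N : ℤ) < n + t ∧ (n : ℤ) + t ≤ 2 * N ∧ (n : ℤ) + t ≤ y)
          · rw [if_pos hc, if_pos hny]
            rw [sum_eq_single (((n : ℤ) + t).toNat)]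
            · rw [if_pos (by omega), if_pos (by omega)]
              norm_num
            · intro n2 _ hne
              rw [if_neg (by omega), zero_mul]
            · intro hnot
              exfalso
              apply hnot
              rw [mem_Ioc]
              omega
          · rw [if_neg hc]
            apply sum_eq_zero
            intro n2 hn2
            rw [mem_Ioc] at hn2
            by_cases h1 : (n2 : ℤ) = n + t
            · rw [if_pos h1, if_neg (show ¬ n2 ≤ y by omega)]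
              norm_num
            · rw [if_neg h1, zero_mul]
        · rw [if_neg (show ¬ (n ≤ y ∧ (N : ℤ) < n + t ∧ (n : ℤ) + t ≤ 2 * N ∧ (n : ℤ) + t ≤ y) from
              fun hc => hny hc.1)]
          simp only [if_neg hny]
          apply sum_eq_zero
          intro n2 hn2
          norm_num
      rw [hBf]
      by_cases hc : (n ≤ y ∧ (N : ℤ) < n + t ∧ (n : ℤ) + t ≤ 2 * N ∧ (n : ℤ) + t ≤ y)
      · simp only [if_pos hc, if_pos (hcond.2 hc)]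
        norm_num
      · simp only [if_neg hc, if_neg (fun h => hc (hcond.1 h))]
        norm_num
    rw [sum_congr rfl e1]
    refine (toInt N (fun x : ℤ => if x ∈ Ico (lo + 1) (lo + 1 + ((hi - lo).toNat : ℤ)) then F x else 0)).trans ?_
    rw [← sum_filter]
    apply sum_congr _ fun _ _ => rfl
    ext x
    rw [mem_filter, mem_Ico, mem_Ico]
    have h1 : hi ≤ 2 * (N : ℤ) := by rw [hhi]; exact (min_le_left _ _).trans (min_le_left _ _)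
    have h2 : (N : ℤ) ≤ lo := by rw [hlo]; exact le_max_left _ _
    constructor
    · rintro ⟨_, h⟩
      exact h
    · rintro ⟨h3, h4⟩
      refine ⟨⟨by omega, by omega⟩, h3, h4⟩

/-- fixed outer variables -/
theorem oaS (hP : S_PH) {K : ℕ} (h : Fin K → ℤ) (W b : ℕ) (hyp : Hyp h W b) {ε C : ℝ} (hε : 0 < ε)
    (hC : 1 ≤ C) (hV : VdcI ε C) (X : ℝ) (M N y : ℕ) (a r u1 u2 e1 e2 : Fin K → ℕ) (l : ℤ)
    (hX : 1 ≤ X) (hNX : (N : ℝ) ≤ X)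
    (hsq : Squarefree (W * Pr a * Pr r * Pr u1 * Pr u2 * Pr e1 * Pr e2))
    (hq : ((W * Pr a * Pr r * Pr u1 * Pr u2 * Pr e1 * Pr e2 : ℕ) : ℝ) ≤ X) :
    |∑ n1 ∈ Ioc N (2 * N), ∑ n2 ∈ Ioc N (2 * N),
      ind ((n2 : ℤ) = n1 + l * ((W * Pr a * Pr r : ℕ) : ℤ)) * (bt y n1 * bt y n2 *
        ∑ m ∈ Ioc M (2 * M), ind (Lc h W b a r (m * n1)) * Du h u1 e1 (m * n1) *
          Du h u2 e2 (m * n2))| ≤
    16 * (((Nat.log 2 ⌊X⌋₊ + 2 : ℕ) : ℝ) * (tau (Pr r * Pr u1 * Pr u2) *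
      (Real.sqrt C * X ^ ε * Bd N ((W * Pr a * Pr e1 * Pr e2 : ℕ) : ℝ) ((Pr r * Pr u1 * Pr u2 : ℕ) : ℝ) 1))) := by
  classical
  have hX0 : 0 < X := by linarith
  obtain ⟨nn, ω, A, Z, hω, hA, hZ1, hZ2, hR⟩ := hP K h W b hyp a r u1 u2 l M
    (hsq.squarefree_of_dvd ⟨Pr e1 * Pr e2, by ring⟩)
  set t : ℤ := l * ((W * Pr a * Pr r : ℕ) : ℤ) with ht
  set c : (p : ℕ) → ZMod p := fun p => if p ∣ Pr u2 then ((t : ℤ) : ZMod p) else 0 with hc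
  obtain ⟨T0, hT0⟩ : ∃ T0, T0 = W * Pr a * Pr e1 * Pr e2 := ⟨_, rfl⟩
  obtain ⟨Pi, hPi⟩ : ∃ Pi, Pi = Pr r * Pr u1 * Pr u2 := ⟨_, rfl⟩
  have hqe : W * Pr a * Pr r * Pr u1 * Pr u2 * Pr e1 * Pr e2 = T0 * Pi := by
    rw [hT0, hPi]; ring
  rw [hqe] at hsq hq
  simp only [← hPi] at hA
  simp only [← hT0, ← hPi]
  have hqpos : 0 < T0 * Pi := Nat.pos_of_ne_zero hsq.ne_zero
  have hPne : Pi ≠ 0 := by
    rintro h0
    rw [h0, mul_zero] at hqpos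
    omega
  obtain ⟨a0, N', hN', hint⟩ := interval N y t
  -- the phases
  set PX : Fin nn → ℤ → ℤ → ℂ := fun ξ k n => Z ξ e1 e2 k n * PH Pi.primeFactors
          (fun p => (k : ZMod p) * ((T0 * Pi / p : ℕ) : ZMod p)⁻¹ * A ξ p) c n with hPX
  set B1 : ℝ := Real.sqrt C * X ^ ε * Bd N (T0 : ℝ) (Pi : ℝ) 1 with hB1
  have hBd1 : 0 ≤ Bd N (T0 : ℝ) (Pi : ℝ) 1 := Bd_nonneg _ _ _ _ (Nat.cast_nonneg _) zero_le_one
  have hB10 : 0 ≤ B1 := by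
    have := Real.rpow_nonneg hX0.le ε
    rw [hB1]; positivity
  have hone : ∀ ξ : Fin nn, ∀ k : ℤ, k ≠ 0 →
      ‖∑ n ∈ Ioc N (2 * N), (Bf N (bt y) t n : ℂ) * PX ξ k (n : ℤ)‖ ≤ (Int.gcd k (Pi : ℤ) : ℝ) * B1 := by
    intro ξ k hk
    rw [hint (PX ξ k)]
    simp only [hPX]
    have hs := single hε hC hV T0 Pi N N' X (A ξ) c (Z ξ e1 e2 k) k a0 hX hN' hNX (hA ξ)
      (fun x => hZ1 ξ e1 e2 k x) (fun x => by
        have := hZ2 ξ e1 e2 k x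
        rw [hT0]
        exact this) hsq hq hk
    refine hs.trans ?_
    have hg1 : (1 : ℝ) ≤ (Int.gcd k (Pi : ℤ) : ℝ) := by
      have : 0 < Int.gcd k (Pi : ℤ) := Int.gcd_pos_of_ne_zero_left _ hk
      exact_mod_cast this
    have hBle : Bd N (T0 : ℝ) (Pi : ℝ) (Int.gcd k (Pi : ℤ)) ≤
        (Int.gcd k (Pi : ℤ) : ℝ) * Bd N (T0 : ℝ) (Pi : ℝ) 1 := by
      unfold Bd
      rw [Real.one_rpow, one_mul, mul_add (Int.gcd k (Pi : ℤ) : ℝ)]
      have h1 : (Int.gcd k (Pi : ℤ) : ℝ) ^ (1 / 4 : ℝ) ≤ (Int.gcd k (Pi : ℤ) : ℝ) := by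
        calc (Int.gcd k (Pi : ℤ) : ℝ) ^ (1 / 4 : ℝ) ≤ (Int.gcd k (Pi : ℤ) : ℝ) ^ (1 : ℝ) :=
              Real.rpow_le_rpow_of_exponent_le hg1 (by norm_num)
          _ = _ := Real.rpow_one _
      have h2 : 0 ≤ Real.sqrt (N : ℝ) * ((Pi : ℝ) ^ (1 / 4 : ℝ) + Real.sqrt N / (Pi : ℝ) ^ (1 / 4 : ℝ)) := by
        have := Real.rpow_nonneg (Nat.cast_nonneg Pi : (0 : ℝ) ≤ Pi) (1 / 4 : ℝ)
        positivity
      apply add_le_add
      · exact le_mul_of_one_le_left (Real.sqrt_nonneg _) hg1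
      · exact mul_le_mul_of_nonneg_right h1 h2
    have hXe := Real.rpow_nonneg hX0.le ε
    calc Real.sqrt C * X ^ ε * Bd N (T0 : ℝ) (Pi : ℝ) (Int.gcd k (Pi : ℤ)) ≤
        Real.sqrt C * X ^ ε * ((Int.gcd k (Pi : ℤ) : ℝ) * Bd N (T0 : ℝ) (Pi : ℝ) 1) := by gcongr
      _ = (Int.gcd k (Pi : ℤ) : ℝ) * B1 := by rw [hB1]; ring
  set E : Fin nn → ℂ := fun ξ => ∑ k ∈ freq (T0 * Pi), Ih M (T0 * Pi) k *
        ∑ n ∈ Ioc N (2 * N), (Bf N (bt y) t n : ℂ) * PX ξ k (n : ℤ) with hE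
  have hEle : ∀ ξ, ‖E ξ‖ ≤ ((Nat.log 2 ⌊X⌋₊ + 2 : ℕ) : ℝ) * (4 * tau Pi * B1) := fun ξ =>
    freqsum M (T0 * Pi) Pi _ hPne _ B1 hB10 (hone ξ) (fun k hk => logb X _ hq k hk)
  set T := ∑ n1 ∈ Ioc N (2 * N), ∑ n2 ∈ Ioc N (2 * N),
      ind ((n2 : ℤ) = n1 + t) * (bt y n1 * bt y n2 *
        ∑ m ∈ Ioc M (2 * M), ind (Lc h W b a r (m * n1)) * Du h u1 e1 (m * n1) *
          Du h u2 e2 (m * n2)) with hT
  have hTE : (T : ℂ) = ∑ ξ, (ω ξ : ℂ) * E ξ := by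
    have e0 : ∑ ξ, (ω ξ : ℂ) * E ξ =
        ∑ n ∈ Ioc N (2 * N), (Bf N (bt y) t n : ℂ) * ∑ ξ, (ω ξ : ℂ) *
          ∑ k ∈ freq (T0 * Pi), Ih M (T0 * Pi) k * Z ξ e1 e2 k (n : ℤ) *
            PH Pi.primeFactors
            (fun p => (k : ZMod p) * ((T0 * Pi / p : ℕ) : ZMod p)⁻¹ * A ξ p) c (n : ℤ) := by
      simp only [hE, hPX, mul_sum]
      rw [sum_comm' (s := Ioc N (2 * N)) (t := fun _ => univ) (t' := univ)
        (s' := fun _ => Ioc N (2 * N)) (by simp)]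
      apply sum_congr rfl; intro ξ _
      rw [sum_comm]
      apply sum_congr rfl; intro n _
      apply sum_congr rfl; intro k _
      ring
    rw [e0, hT]
    push_cast
    apply sum_congr rfl; intro n1 hn1
    simp only [Bf]
    push_cast
    rw [sum_mul]
    apply sum_congr rfl; intro n2 hn2
    by_cases hn : (n2 : ℤ) = n1 + t
    · have hr := hR e1 e2 (by rw [hqe]; exact hsq) n1 n2 hn
      simp only [hqe, ← hPi] at hr
      push_cast at hr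
      rw [hr]
      ring
    · have : ind ((n2 : ℤ) = n1 + t) = 0 := by unfold ind; rw [if_neg hn]
      rw [this]; simp
  have h1 : |T| = ‖(T : ℂ)‖ := by rw [Complex.norm_real, Real.norm_eq_abs]
  have htau : 0 ≤ tau Pi := by unfold tau; positivity
  rw [h1, hTE]
  refine (norm_sum_le _ _).trans ?_
  have h0 : 0 ≤ ((Nat.log 2 ⌊X⌋₊ + 2 : ℕ) : ℝ) * (4 * tau Pi * B1) := by positivity
  calc ∑ ξ, ‖(ω ξ : ℂ) * E ξ‖ ≤ ∑ ξ, |ω ξ| * (((Nat.log 2 ⌊X⌋₊ + 2 : ℕ) : ℝ) * (4 * tau Pi * B1)) := by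
        apply sum_le_sum
        intro ξ _
        rw [norm_mul, Complex.norm_real, Real.norm_eq_abs]
        exact mul_le_mul_of_nonneg_left (hEle ξ) (abs_nonneg _)
    _ = (∑ ξ, |ω ξ|) * (((Nat.log 2 ⌊X⌋₊ + 2 : ℕ) : ℝ) * (4 * tau Pi * B1)) := by rw [sum_mul]
    _ ≤ 4 * (((Nat.log 2 ⌊X⌋₊ + 2 : ℕ) : ℝ) * (4 * tau Pi * B1)) := mul_le_mul_of_nonneg_right hω h0
    _ = _ := by rw [hB1]; ring

end Pool.Agent.J4H35.SM
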