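import Mathlib
import Pool.Agent.Y814.Z.OC
import Pool.Agent.J4H35.SM.OaS

/-! The off-diagonal terms for a smooth variable (no Cauchy-Schwarz step over the variable). -/

open Finset Filter

namespace Pool.Agent.J4H35.SM

open Pool.Agent.Y826.Z Pool.Agent.Y826.Z.OB Pool.Agent.Y814.Z

/-- sizes, smooth variable: the conditions on the lengths `M, N` and the sizes of the four parts of the modulus -/
structure SzS (δ X : ℝ) (M N : ℕ) (RA RB E U : ℝ) : Prop where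
  mn1 : X / 16 ≤ (M : ℝ) * N
  mn2 : (M : ℝ) * N ≤ 16 * X
  n1 : X ^ (1 / 4 : ℝ) ≤ N
  n2 : (N : ℝ) ≤ 16 * X ^ (1 / 2 : ℝ)
  ra : 0 < RA
  rb : 0 < RB
  e : 0 < E
  u : 0 < U
  eu : E * U ≤ X
  c1 : RA * RB ≤ N * X ^ (-δ)
  c3 : RA * E ^ 2 * (max 1 (RA * RB * E ^ 2 * U ^ 2 / M)) ^ 2 ≤ N * X ^ (-δ)
  c4 : RB * U ^ 2 * (max 1 (RA * RB * E ^ 2 * U ^ 2 / M)) ^ 4 ≤ (N : ℝ) ^ 2 * X ^ (-δ)
  c5 : (max 1 (RA * RB * E ^ 2 * U ^ 2 / M)) ^ 4 * X ^ δ ≤ RB * U ^ 2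

/-- the off-diagonal terms, smooth variable -/
def S_OFFS : Prop := ∀ (K : ℕ) (h : Fin K → ℤ) (W b : ℕ), Hyp h W b → ∀ δ : ℝ, 0 < δ → ∃ ε : ℝ, 0 < ε ∧
  ∀ᶠ X : ℝ in atTop, ∀ (M N : ℕ) (RA RB E U : ℝ), SzS δ X M N RA RB E U →
  ∀ (G : Finset (Fin K)) (SA SB SU SV : Finset (Fin K → ℕ)) (th : (Fin K → ℕ) → ℝ)
    (c : (Fin K → ℕ) → (Fin K → ℕ) → (Fin K → ℕ) → (Fin K → ℕ) → ℝ),
    Fm ε X W RA RB E U 1 G SA SB SU SV th c → (∀ v ∈ SV, v = fun _ => 1) →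
  ∀ y : ℕ, |Soff h W b M N SA SB SU SV th c (bt y)| ≤ X ^ (-ε) * (M * (N : ℝ) ^ 2 / (RA * RB))

/-- the final inequality -/
lemma fin_ineqS (N RA RB T U E B H Λ : ℝ) (hN : 0 < N) (hRA : 0 < RA) (hRB : 0 < RB)
    (hT : 0 < T) (hU : 0 < U) (hE : 0 < E) (hE4 : E ^ 4 = RB * U ^ 2) (hΛ : 4 ≤ Λ)
    (hB : B = Real.sqrt (N * (RA * T ^ 2)) + Real.sqrt N * E + N / E)
    (hH1 : 1 ≤ H)
    (s3 : RA * T ^ 2 * H ^ 2 * Λ ^ 1000 ≤ N) (s4 : RB * U ^ 2 * H ^ 4 * Λ ^ 1000 ≤ N ^ 2)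
    (s5 : H ^ 4 * Λ ^ 1000 ≤ RB * U ^ 2) : Λ ^ 23 * H * B ≤ N := by
  have hΛ0 : 0 < Λ := by linarith
  have hΛ1 : 1 ≤ Λ := by linarith
  have hle : ∀ {m n : ℕ}, m ≤ n → Λ ^ m ≤ Λ ^ n := fun h => pow_le_pow_right₀ hΛ1 h
  have hH0 : 0 < H := by linarith
  -- first term
  have t1 : Λ ^ 24 * H * Real.sqrt (N * (RA * T ^ 2)) ≤ N := by
    have h1 : Λ ^ 24 * H * Real.sqrt (N * (RA * T ^ 2)) = Real.sqrt ((Λ ^ 24 * H) ^ 2 * (N * (RA * T ^ 2))) := by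
      rw [Real.sqrt_mul (sq_nonneg _), Real.sqrt_sq (by positivity)]
    rw [h1]
    apply Real.sqrt_le_iff.2
    refine ⟨hN.le, ?_⟩
    calc (Λ ^ 24 * H) ^ 2 * (N * (RA * T ^ 2)) = (RA * T ^ 2 * H ^ 2 * Λ ^ 48) * N := by ring
      _ ≤ (RA * T ^ 2 * H ^ 2 * Λ ^ 1000) * N := by
          have := hle (show 48 ≤ 1000 by norm_num)
          gcongr
      _ ≤ N * N := by gcongr
      _ = N ^ 2 := by ring
  have t2 : Λ ^ 24 * H * (Real.sqrt N * E) ≤ N := by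
    apply pow4_le (by positivity) hN.le
    have h4 : Real.sqrt N ^ 4 = N ^ 2 := by
      calc Real.sqrt N ^ 4 = (Real.sqrt N ^ 2) ^ 2 := by ring
        _ = N ^ 2 := by rw [Real.sq_sqrt hN.le]
    calc (Λ ^ 24 * H * (Real.sqrt N * E)) ^ 4 = H ^ 4 * Λ ^ 96 * (Real.sqrt N ^ 4 * E ^ 4) := by ring
      _ = (RB * U ^ 2 * H ^ 4 * Λ ^ 96) * N ^ 2 := by rw [h4, hE4]; ring
      _ ≤ (RB * U ^ 2 * H ^ 4 * Λ ^ 1000) * N ^ 2 := by
          have := hle (show 96 ≤ 1000 by norm_num)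
          gcongr
      _ ≤ N ^ 2 * N ^ 2 := by gcongr
      _ = N ^ 4 := by ring
  have t3 : Λ ^ 24 * H * (N / E) ≤ N := by
    have h1 : Λ ^ 24 * H ≤ E := by
      apply pow4_le (by positivity) hE.le
      rw [hE4]
      calc (Λ ^ 24 * H) ^ 4 = H ^ 4 * Λ ^ 96 := by ring
        _ ≤ H ^ 4 * Λ ^ 1000 := by
          have := hle (show 96 ≤ 1000 by norm_num)
          gcongr
        _ ≤ _ := s5
    calc Λ ^ 24 * H * (N / E) ≤ E * (N / E) := by gcongr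
      _ = N := by field_simp
  have h3 : Λ * (Λ ^ 23 * H * B) ≤ 3 * N := by
    rw [hB]
    calc Λ * (Λ ^ 23 * H * (Real.sqrt (N * (RA * T ^ 2)) + Real.sqrt N * E + N / E)) =
        Λ ^ 24 * H * Real.sqrt (N * (RA * T ^ 2)) + Λ ^ 24 * H * (Real.sqrt N * E) +
          Λ ^ 24 * H * (N / E) := by ring
      _ ≤ 3 * N := by linarith
  have hB0 : 0 ≤ B := by rw [hB]; positivity
  have h4 : 0 ≤ Λ ^ 23 * H * B := by positivity
  nlinarith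

/-- the bound for one pair, uniform in the outer variables -/
lemma Bd1_le (N RA RB T U E B Λ D d : ℝ) (hN : 0 < N) (hRA : 0 < RA) (hRB : 0 < RB)
    (hT : 0 < T) (hU : 0 < U) (hE : 0 < E) (hE4 : E ^ 4 = RB * U ^ 2) (hΛ : 4 ≤ Λ)
    (hB : B = Real.sqrt (N * (RA * T ^ 2)) + Real.sqrt N * E + N / E)
    (hD : D ≤ RA * T ^ 2 * Λ ^ 4) (hd1 : d ≤ RB * U ^ 2 * Λ ^ 3)
    (hd2 : RB * U ^ 2 / Λ ^ 3 ≤ d) : Bd N D d 1 ≤ Λ ^ 2 * B := by
  have hΛ0 : 0 < Λ := by linarith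
  have hΛ1 : 1 ≤ Λ := by linarith
  have hd0 : 0 < d := lt_of_lt_of_le (by positivity) hd2
  obtain ⟨s, hs⟩ : ∃ s, s = d ^ (1 / 4 : ℝ) := ⟨_, rfl⟩
  have hs0 : 0 < s := by rw [hs]; positivity
  have hs4 : s ^ 4 = d := by
    rw [hs, ← Real.rpow_natCast, ← Real.rpow_mul hd0.le]
    norm_num
  have h1 : s ≤ E * Λ := by
    apply pow4_le hs0.le (by positivity)
    rw [hs4, mul_pow, hE4]
    refine hd1.trans ?_
    have : Λ ^ 3 ≤ Λ ^ 4 := pow_le_pow_right₀ hΛ1 (by norm_num)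
    gcongr
  have h2 : E / Λ ≤ s := by
    apply pow4_le (by positivity) hs0.le
    rw [hs4, div_pow, hE4]
    refine le_trans ?_ hd2
    have : Λ ^ 3 ≤ Λ ^ 4 := pow_le_pow_right₀ hΛ1 (by norm_num)
    gcongr
  unfold Bd
  rw [Real.one_rpow, one_mul, ← hs, hB]
  have h3 : Real.sqrt (N * D) ≤ Λ ^ 2 * Real.sqrt (N * (RA * T ^ 2)) := by
    have e1 : Λ ^ 2 * Real.sqrt (N * (RA * T ^ 2)) = Real.sqrt ((Λ ^ 2) ^ 2 * (N * (RA * T ^ 2))) := by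
      rw [Real.sqrt_mul (sq_nonneg _), Real.sqrt_sq (by positivity)]
    rw [e1]
    apply Real.sqrt_le_sqrt
    calc N * D ≤ N * (RA * T ^ 2 * Λ ^ 4) := by gcongr
      _ = (Λ ^ 2) ^ 2 * (N * (RA * T ^ 2)) := by ring
  have h4 : Real.sqrt N * s ≤ Λ ^ 2 * (Real.sqrt N * E) := by
    calc Real.sqrt N * s ≤ Real.sqrt N * (E * Λ) := by gcongr
      _ = Λ ^ 1 * (Real.sqrt N * E) := by ring
      _ ≤ Λ ^ 2 * (Real.sqrt N * E) := by
          have : Λ ^ 1 ≤ Λ ^ 2 := pow_le_pow_right₀ hΛ1 (by norm_num)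
          gcongr
  have h5 : Real.sqrt N * (Real.sqrt N / s) ≤ Λ ^ 2 * (N / E) := by
    calc Real.sqrt N * (Real.sqrt N / s) ≤ Real.sqrt N * (Real.sqrt N / (E / Λ)) := by gcongr
      _ = Λ * ((Real.sqrt N * Real.sqrt N) / E) := by field_simp
      _ = Λ ^ 1 * (N / E) := by rw [Real.mul_self_sqrt hN.le, pow_one]
      _ ≤ Λ ^ 2 * (N / E) := by
          have : Λ ^ 1 ≤ Λ ^ 2 := pow_le_pow_right₀ hΛ1 (by norm_num)
          gcongr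
  have h6 : Real.sqrt N * (s + Real.sqrt N / s) = Real.sqrt N * s + Real.sqrt N * (Real.sqrt N / s) := by ring
  rw [h6]
  linarith

lemma algS (M N RA RB T U B H Λ : ℝ) (hM : 0 < M) (hN : 0 < N) (hRA : 0 < RA) (hRB : 0 < RB)
    (hB : 0 ≤ B) (hΛ : 4 ≤ Λ) (hH : RA * RB * T ^ 2 * U ^ 2 / M ≤ H) (hH1 : 1 ≤ H) (hf : Λ ^ 23 * H * B ≤ N) :
    Λ * (2 * (N * Λ ^ 2 / (RA * RB))) * ((Λ * (RA * Λ)) * ((Λ * (RB * Λ)) * ((Λ * (T * U * Λ ^ 2)) *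
      (Λ * (T * U * Λ ^ 2)))) * (16 * Λ ^ 6 * B)) ≤ Λ⁻¹ * (M * N ^ 2 / (RA * RB)) := by
  have hΛ0 : 0 < Λ := by linarith
  have e1 : Λ * (2 * (N * Λ ^ 2 / (RA * RB))) * ((Λ * (RA * Λ)) * ((Λ * (RB * Λ)) * ((Λ * (T * U * Λ ^ 2)) *
      (Λ * (T * U * Λ ^ 2)))) * (16 * Λ ^ 6 * B)) = 32 * (Λ ^ 19 * (N * (T ^ 2 * U ^ 2)) * B) := by
    field_simp
    ring
  have e2 : 32 * (Λ ^ 19 * (N * (T ^ 2 * U ^ 2)) * B) =
      Λ⁻¹ * (32 * (Λ ^ 20 * (RA * RB * T ^ 2 * U ^ 2 / M) * B) * (M * N / (RA * RB))) := by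
    field_simp
  rw [e1, e2]
  calc Λ⁻¹ * (32 * (Λ ^ 20 * (RA * RB * T ^ 2 * U ^ 2 / M) * B) * (M * N / (RA * RB)))
      ≤ Λ⁻¹ * (32 * (Λ ^ 20 * H * B) * (M * N / (RA * RB))) := by gcongr
    _ ≤ Λ⁻¹ * (Λ ^ 3 * (Λ ^ 20 * H * B) * (M * N / (RA * RB))) := by
        have : (32 : ℝ) ≤ Λ ^ 3 := by
          calc (32 : ℝ) ≤ 4 ^ 3 := by norm_num
            _ ≤ Λ ^ 3 := by gcongr
        gcongr
    _ = Λ⁻¹ * ((Λ ^ 23 * H * B) * (M * N / (RA * RB))) := by ring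
    _ ≤ Λ⁻¹ * (N * (M * N / (RA * RB))) := by gcongr
    _ = Λ⁻¹ * (M * N ^ 2 / (RA * RB)) := by ring

theorem main_detS (hP : S_PH) {K : ℕ} (h : Fin K → ℤ) (W b M N : ℕ) (hyp : Hyp h W b)
    (G : Finset (Fin K)) (SA SB SU SV : Finset (Fin K → ℕ))
    (th : (Fin K → ℕ) → ℝ) (c : (Fin K → ℕ) → (Fin K → ℕ) → (Fin K → ℕ) → (Fin K → ℕ) → ℝ) (y : ℕ)
    (Λ X C ε RA RB T U H : ℝ) (hε : 0 < ε) (hV : VdcI ε C)
    (hX : 256 ≤ X) (hΛ : 4 ≤ Λ) (hΛX : Λ ^ 4 ≤ X) (hXe : (X ^ 8) ^ ε = Λ)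
    (hW0 : 0 < W) (hWΛ : (W : ℝ) ≤ Λ)
    (hC1 : 1 ≤ C) (hCΛ : C ≤ Λ) (hI : ((Nat.log 2 ⌊X ^ 8⌋₊ + 2 : ℕ) : ℝ) ≤ Λ)
    (hτ : ∀ n : ℕ, n ≠ 0 → (n : ℝ) ≤ X ^ 10 → tau n ^ (2 * K + 1) ≤ Λ)
    (hMN : (M : ℝ) * N ≤ 16 * X) (hM : 0 < M) (hN : 0 < N)
    (hRA : 0 < RA) (hRB : 0 < RB) (hT : 0 < T) (hU : 0 < U) (hTU : T * U ≤ X)
    (hH1 : 1 ≤ H) (hH : RA * RB * T ^ 2 * U ^ 2 / M ≤ H)
    (s1 : RA * RB * Λ ^ 1000 ≤ N)
    (s3 : RA * T ^ 2 * H ^ 2 * Λ ^ 1000 ≤ N) (s4 : RB * U ^ 2 * H ^ 4 * Λ ^ 1000 ≤ (N : ℝ) ^ 2)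
    (s5 : H ^ 4 * Λ ^ 1000 ≤ RB * U ^ 2)
    (hcb : ∀ a r u v, |c a r u v| ≤ 1)
    (hcs : ∀ a r u v, c a r u v ≠ 0 → Squarefree (W * Pr a * Pr r * Pr u * Pr v))
    (hth : ∀ a ∈ SA, |th a| ≤ Λ)
    (hPa : ∀ a ∈ SA, (Pr a : ℝ) ≤ RA * Λ) (hPa2 : ∀ a ∈ SA, RA / Λ ≤ Pr a)
    (hPr : ∀ r ∈ SB, (Pr r : ℝ) ≤ RB * Λ) (hPr2 : ∀ r ∈ SB, RB / Λ ≤ Pr r)
    (hPe : ∀ u ∈ SU, (Pr (rs G u) : ℝ) ≤ T * Λ) (hPe2 : ∀ u ∈ SU, T / Λ ≤ Pr (rs G u))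
    (hPu : ∀ u ∈ SU, (Pr (rs Gᶜ u) : ℝ) ≤ U * Λ) (hPu2 : ∀ u ∈ SU, U / Λ ≤ Pr (rs Gᶜ u))
    (hv1 : ∀ v ∈ SV, v = fun _ => 1) :
    |Soff h W b M N SA SB SU SV th c (bt y)| ≤ Λ⁻¹ * (M * (N : ℝ) ^ 2 / (RA * RB)) := by
  classical
  have hΛ0 : 0 < Λ := by linarith
  have hΛ1 : 1 ≤ Λ := by linarith
  have hMr : (0 : ℝ) < M := by exact_mod_cast hM
  have hNr : (0 : ℝ) < N := by exact_mod_cast hN
  have hM1 : (1 : ℝ) ≤ M := by exact_mod_cast hM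
  have hN1 : (1 : ℝ) ≤ N := by exact_mod_cast hN
  have hX0 : 0 < X := by linarith only [hX]
  have hX1 : 1 ≤ X := by linarith only [hX]
  have hle : ∀ {m n : ℕ}, m ≤ n → Λ ^ m ≤ Λ ^ n := fun h => pow_le_pow_right₀ hΛ1 h
  have hXle : ∀ {m n : ℕ}, m ≤ n → X ^ m ≤ X ^ n := fun h => pow_le_pow_right₀ hX1 h
  have nA : ∀ a ∈ SA, Pr a ≠ 0 := fun a ha => Pr_pos_of (by positivity) (hPa2 a ha)
  have nB : ∀ a ∈ SB, Pr a ≠ 0 := fun a ha => Pr_pos_of (by positivity) (hPr2 a ha)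
  have nE : ∀ a ∈ SU, Pr (rs G a) ≠ 0 := fun a ha => Pr_pos_of (by positivity) (hPe2 a ha)
  have nU : ∀ a ∈ SU, Pr (rs Gᶜ a) ≠ 0 := fun a ha => Pr_pos_of (by positivity) (hPu2 a ha)
  have nUU : ∀ a ∈ SU, Pr a ≠ 0 := fun a ha => by
    rw [← Pr_rs G a]
    exact mul_ne_zero (nE a ha) (nU a ha)
  have hN16 : (N : ℝ) ≤ 16 * X := by
    calc (N : ℝ) = 1 * N := (one_mul _).symm
      _ ≤ M * N := mul_le_mul_of_nonneg_right hM1 hNr.le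
      _ ≤ 16 * X := hMN
  have hNX2 : (N : ℝ) ≤ X ^ 2 := by nlinarith only [hN16, hX]
  have hNX8 : (N : ℝ) ≤ X ^ 8 := hNX2.trans (hXle (by norm_num))
  have hΛ4X : Λ ≤ X := by
    calc Λ = Λ ^ 1 := (pow_one _).symm
      _ ≤ Λ ^ 4 := hle (by norm_num)
      _ ≤ X := hΛX
  have hRARB : RA * RB ≤ X ^ 2 := by
    calc RA * RB = RA * RB * 1 := by ring
      _ ≤ RA * RB * Λ ^ 1000 := by
          have : (1 : ℝ) ≤ Λ ^ 1000 := one_le_pow₀ hΛ1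
          gcongr
      _ ≤ N := s1
      _ ≤ X ^ 2 := hNX2
  -- sizes of the two products of a tuple
  have hPuu : ∀ u ∈ SU, (Pr u : ℝ) ≤ T * U * Λ ^ 2 := by
    intro u hu
    have e1 : (Pr u : ℝ) = (Pr (rs G u) : ℝ) * (Pr (rs Gᶜ u) : ℝ) := by exact_mod_cast (Pr_rs G u).symm
    rw [e1]
    calc (Pr (rs G u) : ℝ) * (Pr (rs Gᶜ u) : ℝ) ≤ (T * Λ) * (U * Λ) :=
          mul_le_mul (hPe u hu) (hPu u hu) (Nat.cast_nonneg _) (by positivity)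
      _ = T * U * Λ ^ 2 := by ring
  have hΛ2X : Λ ^ 2 ≤ X := (hle (by norm_num)).trans hΛX
  have bU : T * U * Λ ^ 2 ≤ X ^ 2 := by
    calc T * U * Λ ^ 2 ≤ X * X := mul_le_mul hTU hΛ2X (by positivity) hX0.le
      _ = X ^ 2 := by ring
  by_cases hne : SA.Nonempty ∧ SB.Nonempty ∧ SU.Nonempty
  swap
  · have h0 : Soff h W b M N SA SB SU SV th c (bt y) = 0 := by
      unfold Soff
      by_cases h1 : SA.Nonempty
      · by_cases h2 : SB.Nonempty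
        · have h3 : ¬ SU.Nonempty := fun h3 => hne ⟨h1, h2, h3⟩
          rw [Finset.not_nonempty_iff_eq_empty] at h3
          subst h3
          simp
        · rw [Finset.not_nonempty_iff_eq_empty] at h2
          subst h2
          simp
      · rw [Finset.not_nonempty_iff_eq_empty] at h1
        subst h1
        simp
    rw [h0, abs_zero]
    positivity
  obtain ⟨⟨a0, ha0⟩, ⟨r0, hr0⟩, ⟨u0, hu0⟩⟩ := hne
  have one_le : ∀ {x : Fin K → ℕ}, Pr x ≠ 0 → (1 : ℝ) ≤ Pr x := fun hx => by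
    exact_mod_cast Nat.one_le_iff_ne_zero.2 hx
  have lA : 1 ≤ RA * Λ := (one_le (nA a0 ha0)).trans (hPa a0 ha0)
  have lB : 1 ≤ RB * Λ := (one_le (nB r0 hr0)).trans (hPr r0 hr0)
  have bA : RA * Λ ≤ X ^ 4 := by
    calc RA * Λ = RA * 1 * Λ := by ring
      _ ≤ RA * (RB * Λ) * Λ := by gcongr
      _ = RA * RB * Λ ^ 2 := by ring
      _ ≤ X ^ 2 * X := mul_le_mul hRARB hΛ2X (by positivity) (by positivity)
      _ = X ^ 3 := by ring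
      _ ≤ X ^ 4 := hXle (by norm_num)
  have bB : RB * Λ ≤ X ^ 4 := by
    calc RB * Λ = 1 * RB * Λ := by ring
      _ ≤ (RA * Λ) * RB * Λ := by gcongr
      _ = RA * RB * Λ ^ 2 := by ring
      _ ≤ X ^ 2 * X := mul_le_mul hRARB hΛ2X (by positivity) (by positivity)
      _ = X ^ 3 := by ring
      _ ≤ X ^ 4 := hXle (by norm_num)
  have τK : ∀ n : ℕ, n ≠ 0 → (n : ℝ) ≤ X ^ 10 → tau n ^ K ≤ Λ := fun n h1 h2 =>
    (pow_le_pow_right₀ (tau_ge_one h1) (by omega)).trans (hτ n h1 h2)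
  have τ1 : ∀ n : ℕ, n ≠ 0 → (n : ℝ) ≤ X ^ 10 → tau n ≤ Λ := fun n h1 h2 => by
    calc tau n = tau n ^ 1 := (pow_one _).symm
      _ ≤ tau n ^ (2 * K + 1) := pow_le_pow_right₀ (tau_ge_one h1) (by omega)
      _ ≤ Λ := hτ n h1 h2
  have X410 : X ^ 4 ≤ X ^ 10 := hXle (by norm_num)
  have X210 : X ^ 2 ≤ X ^ 10 := hXle (by norm_num)
  have X810 : X ^ 8 ≤ X ^ 10 := hXle (by norm_num)
  have cA : (SA.card : ℝ) ≤ Λ * (RA * Λ) :=
    card_tuple SA (RA * Λ) Λ (by positivity) hΛ0.le hPa nA (fun n h1 h2 => τK n h1 (by linarith only [h2, bA, X410]))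
  have cB : (SB.card : ℝ) ≤ Λ * (RB * Λ) :=
    card_tuple SB (RB * Λ) Λ (by positivity) hΛ0.le hPr nB (fun n h1 h2 => τK n h1 (by linarith only [h2, bB, X410]))
  have cU : (SU.card : ℝ) ≤ Λ * (T * U * Λ ^ 2) :=
    card_tuple SU (T * U * Λ ^ 2) Λ (by positivity) hΛ0.le hPuu nUU
      (fun n h1 h2 => τK n h1 (by linarith only [h2, bU, X210]))
  -- the fourth root
  set E : ℝ := (RB * U ^ 2) ^ (1 / 4 : ℝ) with hEdef
  have hE0 : 0 < E := by rw [hEdef]; positivity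
  have hE4 : E ^ 4 = RB * U ^ 2 := by
    rw [hEdef, ← Real.rpow_natCast, ← Real.rpow_mul (by positivity)]
    norm_num
  set B : ℝ := Real.sqrt (N * (RA * T ^ 2)) + Real.sqrt N * E + N / E with hBdef
  have hB0 : 0 ≤ B := by rw [hBdef]; positivity
  -- number of shifts
  set L : ℕ := ⌊N * Λ ^ 2 / (RA * RB)⌋₊ with hLdef
  have hLle : (L : ℝ) ≤ N * Λ ^ 2 / (RA * RB) := Nat.floor_le (by positivity)
  have hp : ∀ a ∈ SA, ∀ r ∈ SB, 0 < W * Pr a * Pr r ∧ N / (W * Pr a * Pr r) ≤ L := by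
    intro a ha r hr
    have p1 : 0 < Pr a := Nat.pos_of_ne_zero (nA a ha)
    have p2 : 0 < Pr r := Nat.pos_of_ne_zero (nB r hr)
    refine ⟨by positivity, ?_⟩
    apply Nat.le_floor
    have hW1 : (1 : ℝ) ≤ W := by exact_mod_cast hW0
    have h1 : ((N / (W * Pr a * Pr r) : ℕ) : ℝ) ≤ (N : ℝ) / ((W * Pr a * Pr r : ℕ) : ℝ) := Nat.cast_div_le
    refine h1.trans ?_
    have h2 : RA / Λ * (RB / Λ) ≤ ((W * Pr a * Pr r : ℕ) : ℝ) := by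
      push_cast
      calc RA / Λ * (RB / Λ) ≤ (Pr a : ℝ) * Pr r := mul_le_mul (hPa2 a ha) (hPr2 r hr) (by positivity) (by positivity)
        _ = 1 * Pr a * Pr r := by ring
        _ ≤ (W : ℝ) * Pr a * Pr r := by gcongr
    calc (N : ℝ) / ((W * Pr a * Pr r : ℕ) : ℝ) ≤ N / (RA / Λ * (RB / Λ)) :=
          div_le_div_of_nonneg_left hNr.le (by positivity) h2
      _ = N * Λ ^ 2 / (RA * RB) := by field_simp
  set G0 : ℝ := 16 * Λ ^ 6 * B with hG0def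
  have hG00 : 0 ≤ G0 := by rw [hG0def]; positivity
  -- fixed outer variables
  have hG : ∀ a ∈ SA, ∀ r ∈ SB, ∀ u1 ∈ SU, ∀ u2 ∈ SU, ∀ l : ℤ,
      |TT h W b M N SV c (bt y) a r u1 u2 l| ≤ (fun _ => G0 :
        (Fin K → ℕ) × (Fin K → ℕ) × (Fin K → ℕ) × (Fin K → ℕ) → ℝ) (a, r, u1, u2) := by
    intro a ha r hr u1 hu1 u2 hu2 l
    simp only
    rw [TT_split h W b M N G SV c (bt y) hcs]
    -- there is at most one term
    have hone : ∀ v1 ∈ SV, ∀ v2 ∈ SV, |kap c a r u1 u2 v1 v2 * ∑ n1 ∈ Ioc N (2 * N), ∑ n2 ∈ Ioc N (2 * N),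
      ind ((n2 : ℤ) = n1 + l * ((W * Pr a * Pr r : ℕ) : ℤ)) * (bt y n1 * bt y n2 *
        ∑ m ∈ Ioc M (2 * M), ind (Lc h W b a r (m * n1)) * Du h (rs Gᶜ u1) (rs G u1 * v1) (m * n1) *
          Du h (rs Gᶜ u2) (rs G u2 * v2) (m * n2))| ≤ G0 := by
      intro v1 hv1' v2 hv2'
      by_cases hk : kap c a r u1 u2 v1 v2 = 0
      · rw [hk, zero_mul, abs_zero]
        exact hG00
      have e1 : v1 = 1 := by rw [hv1 v1 hv1']; rfl
      have e2 : v2 = 1 := by rw [hv1 v2 hv2']; rfl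
      have hPr1 : Pr (1 : Fin K → ℕ) = 1 := by unfold Pr; simp
      have hsf0 := kap_sf W c hcs a r u1 u2 v1 v2 hk
      rw [e1, e2, hPr1, mul_one, mul_one] at hsf0
      have hdv : W * Pr a * Pr r * Pr (rs Gᶜ u1) * Pr (rs Gᶜ u2) * Pr (rs G u1) * Pr (rs G u2) =
          W * Pr a * Pr r * Pr u1 * Pr u2 := by
        rw [← Pr_rs G u1, ← Pr_rs G u2]
        ring
      rw [abs_mul]
      have hk1 := kap_le c hcb a r u1 u2 v1 v2
      have hqR : ((W * Pr a * Pr r * Pr (rs Gᶜ u1) * Pr (rs Gᶜ u2) * Pr (rs G u1) * Pr (rs G u2) : ℕ) : ℝ) ≤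
          X ^ 8 := by
        rw [hdv]
        push_cast
        calc (W : ℝ) * Pr a * Pr r * Pr u1 * Pr u2 ≤
            Λ * (RA * Λ) * (RB * Λ) * (T * U * Λ ^ 2) * (T * U * Λ ^ 2) := by
              have g1 := hPa a ha
              have g2 := hPr r hr
              have g3 := hPuu u1 hu1
              have g4 := hPuu u2 hu2
              gcongr
          _ = (RA * RB) * Λ ^ 3 * (T * U * Λ ^ 2) * (T * U * Λ ^ 2) := by ring
          _ ≤ X ^ 2 * X * X ^ 2 * X ^ 2 := by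
              have : Λ ^ 3 ≤ X := (hle (by norm_num)).trans hΛX
              gcongr
          _ = X ^ 7 := by ring
          _ ≤ X ^ 8 := hXle (by norm_num)
      have hb := oaS hP h W b hyp hε hC1 hV (X ^ 8) M N y a r (rs Gᶜ u1) (rs Gᶜ u2) (rs G u1) (rs G u2) l
        (one_le_pow₀ hX1) hNX8 (by rw [hdv]; exact hsf0) hqR
      rw [e1, e2] at hk1 ⊢
      simp only [mul_one]
      refine (mul_le_of_le_one_left (abs_nonneg _) hk1).trans ?_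
      refine hb.trans ?_
      have hPine : Pr r * Pr (rs Gᶜ u1) * Pr (rs Gᶜ u2) ≠ 0 :=
        mul_ne_zero (mul_ne_zero (nB r hr) (nU u1 hu1)) (nU u2 hu2)
      have hPiX : ((Pr r * Pr (rs Gᶜ u1) * Pr (rs Gᶜ u2) : ℕ) : ℝ) ≤ X ^ 10 := by
        refine le_trans ?_ (hqR.trans X810)
        have hd : Pr r * Pr (rs Gᶜ u1) * Pr (rs Gᶜ u2) ∣
            W * Pr a * Pr r * Pr (rs Gᶜ u1) * Pr (rs Gᶜ u2) * Pr (rs G u1) * Pr (rs G u2) :=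
          ⟨W * Pr a * Pr (rs G u1) * Pr (rs G u2), by ring⟩
        have hpos : 0 < W * Pr a * Pr r * Pr (rs Gᶜ u1) * Pr (rs Gᶜ u2) * Pr (rs G u1) * Pr (rs G u2) := by
          rw [hdv]
          exact Nat.pos_of_ne_zero hsf0.ne_zero
        exact_mod_cast Nat.le_of_dvd hpos hd
      have htau := τ1 _ hPine hPiX
      have htau0 : 0 ≤ tau (Pr r * Pr (rs Gᶜ u1) * Pr (rs Gᶜ u2)) := by unfold tau; positivity
      have hsC : Real.sqrt C ≤ Λ := by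
        calc Real.sqrt C ≤ C := Real.sqrt_le_iff.2 ⟨by linarith, by nlinarith⟩
          _ ≤ Λ := hCΛ
      have hBd := Bd1_le N RA RB T U E B Λ ((W * Pr a * Pr (rs G u1) * Pr (rs G u2) : ℕ) : ℝ)
        ((Pr r * Pr (rs Gᶜ u1) * Pr (rs Gᶜ u2) : ℕ) : ℝ) hNr hRA hRB hT hU hE0 hE4 hΛ hBdef
        (by
          push_cast
          calc (W : ℝ) * Pr a * Pr (rs G u1) * Pr (rs G u2) ≤ Λ * (RA * Λ) * (T * Λ) * (T * Λ) := by
                have g1 := hPa a ha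
                have g3 := hPe u1 hu1
                have g4 := hPe u2 hu2
                gcongr
            _ = _ := by ring)
        (by
          push_cast
          calc (Pr r : ℝ) * Pr (rs Gᶜ u1) * Pr (rs Gᶜ u2) ≤ (RB * Λ) * (U * Λ) * (U * Λ) := by
                have g1 := hPr r hr
                have g3 := hPu u1 hu1
                have g4 := hPu u2 hu2
                gcongr
            _ = _ := by ring)
        (by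
          push_cast
          calc RB * U ^ 2 / Λ ^ 3 = (RB / Λ) * (U / Λ) * (U / Λ) := by field_simp
            _ ≤ (Pr r : ℝ) * Pr (rs Gᶜ u1) * Pr (rs Gᶜ u2) := by
                have g1 := hPr2 r hr
                have g3 := hPu2 u1 hu1
                have g4 := hPu2 u2 hu2
                gcongr)
      have hBd0 : 0 ≤ Bd N ((W * Pr a * Pr (rs G u1) * Pr (rs G u2) : ℕ) : ℝ)
        ((Pr r * Pr (rs Gᶜ u1) * Pr (rs Gᶜ u2) : ℕ) : ℝ) 1 :=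
        Bd_nonneg _ _ _ _ zero_le_one (Nat.cast_nonneg _)
      rw [hXe]
      calc 16 * (((Nat.log 2 ⌊X ^ 8⌋₊ + 2 : ℕ) : ℝ) * (tau (Pr r * Pr (rs Gᶜ u1) * Pr (rs Gᶜ u2)) *
          (Real.sqrt C * Λ * Bd N ((W * Pr a * Pr (rs G u1) * Pr (rs G u2) : ℕ) : ℝ)
            ((Pr r * Pr (rs Gᶜ u1) * Pr (rs Gᶜ u2) : ℕ) : ℝ) 1))) ≤
          16 * (Λ * (Λ * (Λ * Λ * (Λ ^ 2 * B)))) := by gcongr
        _ = G0 := by rw [hG0def]; ring
    -- the sum over `SV`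
    have hcard : ∀ S : Finset (Fin K → ℕ), (∀ v ∈ S, v = fun _ => 1) → (S.card : ℝ) ≤ 1 := by
      intro S hS
      have : S ⊆ {fun _ => 1} := by
        intro v hv
        rw [mem_singleton]
        exact hS v hv
      have h1 := card_le_card this
      rw [card_singleton] at h1
      exact_mod_cast h1
    have hSV := hcard SV hv1
    refine (abs_sum_le_sum_abs _ _).trans ?_
    have h2 : ∀ v1 ∈ SV, |∑ v2 ∈ SV, kap c a r u1 u2 v1 v2 * ∑ n1 ∈ Ioc N (2 * N), ∑ n2 ∈ Ioc N (2 * N),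
      ind ((n2 : ℤ) = n1 + l * ((W * Pr a * Pr r : ℕ) : ℤ)) * (bt y n1 * bt y n2 *
        ∑ m ∈ Ioc M (2 * M), ind (Lc h W b a r (m * n1)) * Du h (rs Gᶜ u1) (rs G u1 * v1) (m * n1) *
          Du h (rs Gᶜ u2) (rs G u2 * v2) (m * n2))| ≤ G0 := by
      intro v1 hv1'
      refine (abs_sum_le_sum_abs _ _).trans ?_
      refine (sum_le_sum fun v2 hv2' => hone v1 hv1' v2 hv2').trans ?_
      rw [sum_const, nsmul_eq_mul]
      exact mul_le_of_le_one_left hG00 hSV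
    refine (sum_le_sum h2).trans ?_
    rw [sum_const, nsmul_eq_mul]
    exact mul_le_of_le_one_left hG00 hSV
  have hmain := soff_le h W b M N SA SB SU SV th c (bt y) L hp Λ hΛ0.le hth (fun _ => G0) hG
  have hfin := fin_ineqS N RA RB T U E B H Λ hNr hRA hRB hT hU hE0 hE4 hΛ hBdef hH1 s3 s4 s5
  have hOO : ∑ o ∈ OO SA SB SU, G0 ≤ (Λ * (RA * Λ)) * ((Λ * (RB * Λ)) * ((Λ * (T * U * Λ ^ 2)) *
      (Λ * (T * U * Λ ^ 2)))) * G0 := by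
    rw [sum_const, nsmul_eq_mul]
    unfold OO
    rw [card_product, card_product, card_product]
    push_cast
    gcongr
  calc |Soff h W b M N SA SB SU SV th c (bt y)| ≤ Λ * (2 * L) * ∑ o ∈ OO SA SB SU, G0 := hmain
    _ ≤ Λ * (2 * (N * Λ ^ 2 / (RA * RB))) * ((Λ * (RA * Λ)) * ((Λ * (RB * Λ)) * ((Λ * (T * U * Λ ^ 2)) *
      (Λ * (T * U * Λ ^ 2)))) * G0) := by
        have : 0 ≤ ∑ o ∈ OO SA SB SU, G0 := Finset.sum_nonneg fun o _ => hG00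
        gcongr
    _ ≤ Λ⁻¹ * (M * (N : ℝ) ^ 2 / (RA * RB)) := by
        rw [hG0def]
        exact algS M N RA RB T U B H Λ hMr hNr hRA hRB hB0 hΛ hH hH1 hfin

theorem offS (hP : S_PH) (hV : S_VDC) : S_OFFS := by
  intro K h W b hyp δ hδ
  set δ' : ℝ := min δ 1 with hδ'
  have hd1 : δ' ≤ 1 := min_le_right _ _
  have hd2 : δ' ≤ δ := min_le_left _ _
  have hd0 : 0 < δ' := lt_min hδ one_pos
  set ε : ℝ := δ' / 1000 with hεdef
  have hε : 0 < ε := by positivity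
  have hε1 : 4 * ε ≤ 1 := by rw [hεdef]; linarith
  obtain ⟨C, hC1, hVV⟩ := hV (ε / 8) (by positivity)
  refine ⟨ε, hε, ?_⟩
  have hlog8 : ∀ᶠ X : ℝ in atTop, ((Nat.log 2 ⌊X ^ 8⌋₊ + 2 : ℕ) : ℝ) ≤ X ^ ε := by
    have h1 := ev_log (ε / 4) (by positivity)
    have h2 : Tendsto (fun X : ℝ => X ^ 4) atTop atTop := tendsto_pow_atTop (by norm_num)
    filter_upwards [h2.eventually h1, eventually_ge_atTop 1] with X hX hX1
    have hX0 : 0 < X := by linarith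
    have e1 : (X ^ 4) ^ (ε / 4) = X ^ ε := by
      rw [← Real.rpow_natCast, ← Real.rpow_mul hX0.le]
      congr 1
      push_cast
      ring
    rw [e1] at hX
    refine le_trans ?_ hX
    have h3 : ⌊X ^ 8⌋₊ ≤ ⌊(X ^ 4) ^ 3⌋₊ := by
      apply Nat.floor_mono
      rw [← pow_mul]
      exact pow_le_pow_right₀ hX1 (by norm_num)
    have h4 := Nat.log_mono_right (b := 2) h3
    exact_mod_cast Nat.add_le_add_right h4 2
  filter_upwards [eventually_ge_atTop 256, (tendsto_rpow_atTop hε).eventually_ge_atTop 4,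
    (tendsto_rpow_atTop hε).eventually_ge_atTop (W : ℝ), (tendsto_rpow_atTop hε).eventually_ge_atTop C,
    hlog8, ev_tau (2 * K) ε hε] with X h256 hΛ4 hWΛ hCΛ hI hτ
  intro M N RA RB T U hS G SA SB SU SV th c hF hv1 y
  have hX0 : 0 < X := by linarith
  have hX1 : 1 ≤ X := by linarith
  set Λ : ℝ := X ^ ε with hΛdef
  have hΛ0 : 0 < Λ := by linarith
  have hinv : X ^ (-ε) = Λ⁻¹ := by rw [Real.rpow_neg hX0.le]
  have hΛ1000 : Λ ^ 1000 = X ^ δ' := by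
    rw [hΛdef, ← Real.rpow_natCast, ← Real.rpow_mul hX0.le]
    congr 1
    rw [hεdef]
    push_cast
    ring
  have hΛX : Λ ^ 4 ≤ X := by
    rw [hΛdef, ← Real.rpow_natCast, ← Real.rpow_mul hX0.le]
    calc X ^ (ε * ((4 : ℕ) : ℝ)) ≤ X ^ (1 : ℝ) :=
          Real.rpow_le_rpow_of_exponent_le hX1 (by push_cast; linarith)
      _ = X := Real.rpow_one X
  have hXe : (X ^ 8) ^ (ε / 8) = Λ := by
    rw [hΛdef, ← Real.rpow_natCast, ← Real.rpow_mul hX0.le]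
    congr 1
    push_cast
    ring
  have hdle : Λ ^ 1000 ≤ X ^ δ := by
    rw [hΛ1000]
    exact Real.rpow_le_rpow_of_exponent_le hX1 hd2
  have hXd : 0 < X ^ δ := by positivity
  have hdn : X ^ (-δ) * Λ ^ 1000 ≤ 1 := by
    rw [Real.rpow_neg hX0.le, inv_mul_le_iff₀ hXd, mul_one]
    exact hdle
  have hMN0 : 0 < (M : ℝ) * N := lt_of_lt_of_le (by positivity) hS.mn1
  have hM : 0 < M := by
    rcases Nat.eq_zero_or_pos M with h0 | h0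
    · rw [h0] at hMN0; simp at hMN0
    · exact h0
  have hN : 0 < N := by
    rcases Nat.eq_zero_or_pos N with h0 | h0
    · rw [h0] at hMN0; simp at hMN0
    · exact h0
  have hΛ1000pos : 0 ≤ Λ ^ 1000 := by positivity
  have tr : ∀ {x y : ℝ}, 0 ≤ y → x ≤ y * X ^ (-δ) → x * Λ ^ 1000 ≤ y := by
    intro x y hy hxy
    calc x * Λ ^ 1000 ≤ (y * X ^ (-δ)) * Λ ^ 1000 := mul_le_mul_of_nonneg_right hxy hΛ1000pos
      _ = y * (X ^ (-δ) * Λ ^ 1000) := by ring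
      _ ≤ y * 1 := mul_le_mul_of_nonneg_left hdn hy
      _ = y := mul_one y
  set H : ℝ := max 1 (RA * RB * T ^ 2 * U ^ 2 / M) with hH
  have mul1 : ∀ R : ℝ, R * X ^ (-ε) = R / Λ := fun R => by rw [hinv]; rfl
  have hres := main_detS hP h W b M N hyp G SA SB SU SV th c y Λ X C (ε / 8) RA RB T U H (by positivity)
    hVV h256 hΛ4 hΛX hXe hyp.wpos hWΛ hC1 hCΛ hI
    hτ hS.mn2 hM hN hS.ra hS.rb hS.e hS.u hS.eu (le_max_left _ _) (le_max_right _ _)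
    (tr (Nat.cast_nonneg _) hS.c1) (tr (Nat.cast_nonneg _) hS.c3)
    (tr (by positivity) hS.c4)
    ((mul_le_mul_of_nonneg_left hdle (by positivity)).trans hS.c5)
    hF.cb hF.cs
    (fun a ha => by
      rw [abs_of_nonneg (by linarith [hF.th1 a ha])]
      exact hF.th2 a ha)
    hF.sa2 (fun a ha => by rw [← mul1]; exact hF.sa1 a ha)
    hF.sb2 (fun a ha => by rw [← mul1]; exact hF.sb1 a ha)
    hF.se2 (fun a ha => by rw [← mul1]; exact hF.se1 a ha)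
    hF.su2 (fun a ha => by rw [← mul1]; exact hF.su1 a ha)
    hv1
  rw [hinv]
  exact hres

end Pool.Agent.J4H35.SM
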