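import Mathlib
import Pool.Agent.Y826.Z.Main
import Pool.Agent.J4H35.SM.Tii

/-! Bilinear forms with one smooth variable, unconditionally. -/

namespace Pool.Agent.J4H35.SM

open Pool.Agent.Y826.Z

theorem s_offS : S_OFFS := offS Pool.Agent.Y870.Z.phase s_vdc

theorem s_tiiS : S_TIIS := tiiS s_offS trivS bls

end Pool.Agent.J4H35.SM
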